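import Pool.Agent.Q107.TO.Parity

set_option autoImplicit false

namespace Pool.Agent.Results.MP_0c59fa_nt.ParityOfTo

open Finset PowerSeries

/-- the `m`-th term `q^{2m} (-q;q)_{2m} / (q;q²)_{m+1}` of the series `T_o(q)` -/
noncomputable def term (m : ℕ) : ℤ⟦X⟧ :=
  X ^ (2 * m) * (∏ k ∈ range (2 * m), (1 + X ^ (k + 1))) *
    invOfUnit (∏ k ∈ range (m + 1), (1 - X ^ (2 * k + 1))) 1

/-- `t_o(n)`: the coefficient of `q^n` in `T_o(q)`; the terms with `m > n` do not contribute -/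
noncomputable def tcoef (n : ℕ) : ℤ := ∑ m ∈ range (n + 1), coeff n (term m)

/-- If `8n+9` is not of the form `x²+2y²` then `t_o(n)` is even. -/
theorem result : ∀ n : ℕ, (¬ ∃ x y : ℤ, 8 * (n : ℤ) + 9 = x ^ 2 + 2 * y ^ 2) → Even (tcoef n) := by
  intro n h
  have h1 := Pool.Agent.Q107.TO.even_coeff n h
  rw [Pool.Agent.Q107.TO.coeff_TT] at h1
  have e : ∀ m, Pool.Agent.Q107.TO.tT 0 m = term m := by
    intro m
    unfold Pool.Agent.Q107.TO.tT Pool.Agent.Q107.TO.nT Pool.Agent.Q107.TO.dT term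
      Pool.Agent.Q107.TO.iv
    have e1 : ∀ k : ℕ, 2 * 0 + 1 + k = k + 1 := fun k => by ring
    have e2 : ∀ k : ℕ, 2 * 0 + 1 + 2 * k = 2 * k + 1 := fun k => by ring
    simp only [e1, e2]
  simp only [e] at h1
  exact even_iff_two_dvd.2 h1

end Pool.Agent.Results.MP_0c59fa_nt.ParityOfTo
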